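import Pool.Agent.Helper6.MS.Key
import Pool.Agent.Helper20.MS.Border

/-!
# The exact border for the spectra of monadic second-order sentences, all arities
-/

set_option autoImplicit false

namespace Pool.Agent.Helper38.MS

open FirstOrder Pool.Agent.Helper20.Spectra Pool.Agent.Helper31.QD Pool.Agent.Helper38.MC
  Pool.Agent.Helper58.QD Pool.Agent.Helper40.MC Pool.Agent.Helper6.MC Pool.Agent.Helper6.EA
open Pool.Agent.Helper14.SS (SFm)
open Pool.Agent.Helper40.MCM (SatM countM specM)

/-- the border with one constant `K` (from the sentence) -/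
theorem borderM (S : Type) [Finite S] (ar : S → ℕ) (φ : SFm (RelLang S ar) 0 0) :
    ∃ K : ℕ, (∀ᶠ n : ℕ in Filter.atTop, countM φ n * K ^ n ≤ n.factorial) → ∃ k, FinAP k (specM φ) :=
  border_ofG (fun r c a e ha he => keyS r c a e ha he) S ar φ

/-- if `M K ^ n ≤ n!` eventually for every `K`, the spectrum is the union of a finite set and of finitely many arithmetic
progressions with differences at most some `k` -/
theorem borderM2 (S : Type) [Finite S] (ar : S → ℕ) (φ : SFm (RelLang S ar) 0 0)
    (h : ∀ K : ℕ, ∀ᶠ n : ℕ in Filter.atTop, countM φ n * K ^ n ≤ n.factorial) : ∃ k, FinAP k (specM φ) := by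
  obtain ⟨K, hK⟩ := borderM S ar φ
  exact hK (h K)

end Pool.Agent.Helper38.MS
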