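import Pool.Agent.Helper20.EA.Fam
import Pool.Agent.Helper53.MS.ClassL
import Pool.Agent.Helper89.MS.PeelCard
import Pool.Agent.Helper58.MS.PeelOc
import Pool.Agent.Helper12.MS.Fix
import Pool.Agent.Helper89.MS.Oc

/-!
# MS11: peeling all full classes of components
-/

set_option autoImplicit false

namespace Pool.Agent.Helper38.MS

open FirstOrder Pool.Agent.Helper20.Spectra Pool.Agent.Helper31.QD Pool.Agent.Helper38.MC
  Pool.Agent.Helper58.QD Pool.Agent.Helper40.MC Pool.Agent.Helper6.MC Pool.Agent.Helper6.EA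
open Pool.Agent.Helper12.EK (Gr Ball Cmp mem_Cmp)

variable {S : Type} {ar : S → ℕ} {V : Type} [Fintype V]

private lemma oA_mono6 (R : Interp S ar V) {A A' : Finset V} (hA : A ⊆ A') (x : V) : oA R A' x ⊆ oA R A x := by
  intro y hy
  obtain ⟨g, hg, h⟩ := mem_orb'.1 hy
  refine mem_orb'.2 ⟨g, ?_, h⟩
  rw [mem_GS] at hg ⊢
  exact ⟨hg.1, fun a ha => hg.2 a (hA ha)⟩

/-- the trivial group -/
lemma oc_le_pow6 (c t : ℕ) (H : Subgroup (Equiv.Perm (Fin t))) : oc c H ≤ 2 ^ (c * t) := by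
  unfold oc
  calc Nat.card (Quotient (ocS c H)) ≤ Nat.card (Fin t → Fin c → Bool) :=
        Nat.card_le_card_of_surjective _ Quotient.mk_surjective
    _ = 2 ^ (c * t) := by
        rw [Nat.card_eq_fintype_card, Fintype.card_fun, Fintype.card_fun, Fintype.card_bool, Fintype.card_fin,
          Fintype.card_fin, ← pow_mul]

omit [Fintype V] in
/-- a homogeneous family, with the trivial group -/
lemma FamR.toG6 {R : Interp S ar V} {D t : ℕ} (h : FamR R D t) (c : ℕ) : FamG R c D t (2 ^ (c * t)) := by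
  obtain ⟨u, hu, h1⟩ := h
  refine ⟨u, ⊥, hu, h1, ?_, oc_le_pow6 c t ⊥⟩
  intro γ hγ i σ h2 h3
  rw [Subgroup.mem_bot] at hγ
  have h4 : σ = 1 := by
    ext z
    by_cases hz : ∃ x, u (i, x) = z
    · obtain ⟨x, rfl⟩ := hz
      rw [h2, hγ]
      rfl
    · push Not at hz
      exact h3 z hz
  rw [h4]
  exact (AuG R).one_mem

omit [Fintype V] in
/-- the group of the first block acts in all blocks -/
lemma res_block6 {R : Interp S ar V} {D t : ℕ} {u : Fin D × Fin t → V} (hu : Function.Injective u)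
    (hperm : ∀ (π : Equiv.Perm (Fin D)) (σ : Equiv.Perm V), (∀ i x, σ (u (i, x)) = u (π i, x)) →
      (∀ z, (∀ p, u p ≠ z) → σ z = z) → Au R σ) (i₀ : Fin D) (hu₀ : Function.Injective (fun x => u (i₀, x)))
    {γ : Equiv.Perm (Fin t)} (hγ : γ ∈ res (AuG R) (fun x => u (i₀, x)) hu₀) (i : Fin D) {σ : Equiv.Perm V}
    (h1 : ∀ x, σ (u (i, x)) = u (i, γ x)) (h2 : ∀ z, (∀ x, u (i, x) ≠ z) → σ z = z) : Au R σ := by
  classical
  -- the swap of the blocks
  obtain ⟨τ, hτ1, hτ2⟩ := exists_ext hu ((Equiv.swap i₀ i).prodCongr (Equiv.refl (Fin t)))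
  have hτ3 : ∀ j x, τ (u (j, x)) = u (Equiv.swap i₀ i j, x) := fun j x => hτ1 (j, x)
  have hτ : τ ∈ AuG R := hperm _ τ hτ3 (fun z hz => hτ2 z hz)
  have hττ : ∀ z, τ (τ z) = z := by
    intro z
    by_cases hz : ∃ p, u p = z
    · obtain ⟨⟨j, x⟩, rfl⟩ := hz
      rw [hτ3, hτ3, Equiv.swap_apply_self]
    · push Not at hz
      rw [hτ2 z hz, hτ2 z hz]
  have h3 : τ * σ * τ ∈ AuG R := by
    apply mem_res.1 hγ
    · intro x
      show τ (σ (τ (u (i₀, x)))) = u (i₀, γ x)
      rw [hτ3, Equiv.swap_apply_left, h1, hτ3, Equiv.swap_apply_right]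
    · intro z hz
      show τ (σ (τ z)) = z
      rw [h2 (τ z), hττ]
      intro x hx
      apply hz x
      have := congrArg τ hx
      rw [hττ, hτ3, Equiv.swap_apply_right] at this
      exact this
  have h4 : σ = τ * (τ * σ * τ) * τ := by
    ext z
    show σ z = τ (τ (σ (τ (τ z))))
    rw [hττ, hττ]
  rw [h4]
  exact (AuG R).mul_mem ((AuG R).mul_mem hτ h3) hτ

open Classical in
/-- peeling one class: order of the group and orbits on the colourings -/
private lemma peel6 (c : ℕ) (G : Subgroup (Equiv.Perm V)) (A : Finset V) {D t : ℕ} (u : Fin D × Fin t → V) (hu : Function.Injective u)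
    (hA : ∀ p, u p ∉ A)
    (hperm : ∀ (π : Equiv.Perm (Fin D)) (σ : Equiv.Perm V), (∀ i x, σ (u (i, x)) = u (π i, x)) →
      (∀ z, (∀ p, u p ≠ z) → σ z = z) → σ ∈ G)
    (h2 : ∀ g ∈ GS G A, ∀ i, ∃ i', ∀ x, ∃ x', g (u (i, x)) = u (i', x'))
    (h3 : ∀ g ∈ GS G A, ∀ i, (∀ x, ∃ x', g (u (i, x)) = u (i, x')) → ∀ σ : Equiv.Perm V,
      (∀ x, σ (u (i, x)) = g (u (i, x))) → (∀ z, (∀ x, u (i, x) ≠ z) → σ z = z) → σ ∈ G)
    (i₀ : Fin D) (hu₀ : Function.Injective (fun x => u (i₀, x))) :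
    ∃ A'' : Finset V, (∀ z, z ∈ A'' ↔ z ∈ A ∨ ∃ p, u p = z) ∧ A''.card = A.card + D * t ∧
      (GS G A).card ≤ D.factorial * Nat.card (res G (fun x => u (i₀, x)) hu₀) ^ D * (GS G A'').card ∧
      ocA c G A ≤ Nat.multichoose (oc c (res G (fun x => u (i₀, x)) hu₀)) D * ocA c G A'' := by
  refine ⟨A ∪ Finset.univ.image u, fun z => ?_, ?_, peel_card G A u hu hA hperm h2 h3 i₀ hu₀,
    peel_oc c G A u hu hA hperm i₀ hu₀⟩
  · rw [Finset.mem_union, Finset.mem_image]
    simp
  · rw [Finset.card_union_of_disjoint, Finset.card_image_of_injective _ hu, Finset.card_univ,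
      Fintype.card_prod, Fintype.card_fin, Fintype.card_fin]
    rw [Finset.disjoint_left]
    intro z hz hz2
    obtain ⟨p, -, rfl⟩ := Finset.mem_image.1 hz2
    exact hA p hz

theorem peelAll {r Δ T M₀ s' c a e m : ℕ} (har : ∀ s, ar s ≤ r) (R : Interp S ar V) [DecidableEq V] (ha : 1 ≤ a) (he : 1 ≤ e) (hm : 1 ≤ m)
    (hNB : NoBig R c a e) {A : Finset V} {E : V → V → Prop} (hG : Gd r R A E r Δ T)
    (hA : ∀ A', A ⊆ A' → ∀ x, ((∃ a ∈ A, a ∈ Cmp E x) → (oA R A' x).card ≤ s') ∧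
        ((∀ y ∈ Cmp E x, y ∉ A) → (Cmp E x).card ≤ M₀))
    (h1 : M₀ * (T + r + 4) ≤ s') (h2 : m * (a * 2 ^ (c * e * m) + T + 3 * r + 3) ≤ s') {κ : ℝ} (_hκ : 0 ≤ κ)
    (hSmall : ∀ A', A ⊆ A' → (∀ x, x ∉ A' → (oA R A' x).card ≤ s') →
      Real.log (FA c e (AuG R) A') ≤ κ * (Fintype.card V - A'.card))
    (hBlock : ∀ (t : ℕ) (w : Fin t → V) (hw : Function.Injective w), t ≤ M₀ → Real.log (Fp c e (res (AuG R) w hw)) ≤ κ * t) :
    Real.log (FA c e (AuG R) A) ≤ (κ + Real.log (a * 4 ^ e) / m) * (Fintype.card V - A.card) := by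
  classical
  obtain ⟨L, hL⟩ : ∃ L : ℝ, L = Real.log (a * 4 ^ e) := ⟨_, rfl⟩
  have ha1 : (1 : ℝ) ≤ a * 4 ^ e := by
    have h3 : (1 : ℝ) ≤ a := by exact_mod_cast ha
    have h4 : (1 : ℝ) ≤ 4 ^ e := one_le_pow₀ (by norm_num)
    nlinarith
  have hL0 : 0 ≤ L := by
    rw [hL]
    exact Real.log_nonneg ha1
  have hm0 : (0 : ℝ) < m := by exact_mod_cast hm
  rw [← hL]
  -- the induction
  have key : ∀ N : ℕ, ∀ A' : Finset V, A ⊆ A' → (∀ z ∈ A', z ∉ A → ∀ y, (Gr E).Reachable z y → y ∈ A') →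
      Fintype.card V - A'.card = N →
      Real.log (FA c e (AuG R) A') ≤ (κ + L / m) * (Fintype.card V - A'.card) := by
    intro N
    induction N using Nat.strong_induction_on with
    | _ N IH =>
    intro A' hAA hcl hN
    have hcard : A'.card ≤ Fintype.card V := Finset.card_le_univ A'
    have hcR : (0 : ℝ) ≤ (Fintype.card V : ℝ) - A'.card := by
      have : (A'.card : ℝ) ≤ Fintype.card V := by exact_mod_cast hcard
      linarith
    by_cases hall : ∀ x, x ∉ A' → (oA R A' x).card ≤ s'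
    · refine (hSmall A' hAA hall).trans (mul_le_mul_of_nonneg_right ?_ hcR)
      have := div_nonneg hL0 hm0.le
      linarith
    push Not at hall
    obtain ⟨x, hxA, hxO⟩ := hall
    have hx1 : ∀ y ∈ Cmp E x, y ∉ A := by
      intro y hy hyA
      have := (hA A' hAA x).1 ⟨y, hyA, hy⟩
      omega
    have hx2 := (hA A' hAA x).2 hx1
    have hx3 : ∀ y ∈ Cmp E x, y ∉ A' := by
      intro y hy hyA
      exact hxA (hcl y hyA (hx1 y hy) x (mem_Cmp.1 hy).symm)
    have hx4 : (Cmp E x).card * (T + r + 4) < (oA R A' x).card :=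
      lt_of_le_of_lt ((Nat.mul_le_mul_right _ hx2).trans h1) hxO
    -- the component is large
    have hbig : m < (Cmp E x).card := by
      by_contra hcon
      rw [not_lt] at hcon
      have h3 : m * (a * 2 ^ (c * e * m) + T + 3 * r + 3) < (oA R A x).card := by
        have h4 : (oA R A' x).card ≤ (oA R A x).card := Finset.card_le_card (oA_mono6 R hAA x)
        omega
      obtain ⟨t', ht1, ht2, hF⟩ := small_fam har R hG hcon h3
      apply hNB t' (2 ^ (c * t')) ht1
      refine FamG.mono (FamR.toG6 hF c) le_rfl ?_ le_rfl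
      apply Nat.mul_le_mul_left
      rw [← pow_mul]
      apply Nat.pow_le_pow_right (by norm_num)
      calc c * t' * e = c * e * t' := by ring
        _ ≤ c * e * m := Nat.mul_le_mul_left _ ht2
    obtain ⟨D, t, u, hD, ht, hu, huA, hperm, hb, hc3, hreach⟩ := classL har R hG hAA hx3 hx4
    have i₀ : Fin D := ⟨0, by omega⟩
    have hu₀ : Function.Injective (fun x => u (i₀, x)) := fun a b hab => (Prod.mk.inj (hu hab)).2
    obtain ⟨o, ho⟩ : ∃ o, o = oc c (res (AuG R) (fun x => u (i₀, x)) hu₀) := ⟨_, rfl⟩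
    have ho1 : 1 ≤ o := by
      rw [ho]
      exact oc_pos c _
    have ht1 : 1 ≤ t := by omega
    have hDo : D ≤ a * o ^ e := by
      by_contra hcon
      rw [not_le] at hcon
      apply hNB t o ht1
      refine FamG.mono (c := c) (D := D) (O := o) ⟨u, res (AuG R) (fun x => u (i₀, x)) hu₀, hu, hperm, ?_, ho.ge⟩ le_rfl hcon.le le_rfl
      intro γ hγ i σ h3 h4
      exact res_block6 hu hperm i₀ hu₀ hγ i h3 h4
    obtain ⟨A'', hA'', hA''c, hc1, hc2⟩ := peel6 c (AuG R) A' u hu huA hperm hb hc3 i₀ hu₀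
    rw [← ho] at hc2
    obtain ⟨g, hg⟩ : ∃ g, g = Nat.card (res (AuG R) (fun x => u (i₀, x)) hu₀) := ⟨_, rfl⟩
    have hg1 : 1 ≤ g := by
      rw [hg]
      exact Nat.card_pos
    have hFp : Fp c e (res (AuG R) (fun x => u (i₀, x)) hu₀) = g * o ^ e := by
      unfold Fp
      rw [hg, ho]
    have hF : FA c e (AuG R) A' ≤ (a * 4 ^ e) ^ D * (g * o ^ e) ^ D * FA c e (AuG R) A'' := by
      unfold FA
      rw [← hg] at hc1
      calc (GS (AuG R) A').card * ocA c (AuG R) A' ^ e ≤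
          (D.factorial * g ^ D * (GS (AuG R) A'').card) * (Nat.multichoose o D * ocA c (AuG R) A'') ^ e :=
            Nat.mul_le_mul hc1 (Nat.pow_le_pow_left hc2 e)
        _ = (D.factorial * Nat.multichoose o D ^ e) * (g ^ D * ((GS (AuG R) A'').card * ocA c (AuG R) A'' ^ e)) := by
            rw [mul_pow]
            ring
        _ ≤ (a * 4 ^ e * o ^ e) ^ D * (g ^ D * ((GS (AuG R) A'').card * ocA c (AuG R) A'' ^ e)) :=
            Nat.mul_le_mul_right _ (peel_num he ho1 hDo)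
        _ = _ := by
            rw [mul_pow, mul_pow]
            ring
    have hA''le : A''.card ≤ Fintype.card V := Finset.card_le_univ A''
    have hDt : 1 ≤ D * t := Nat.one_le_iff_ne_zero.2 (Nat.mul_ne_zero (by omega) (by omega))
    have hIH := IH (Fintype.card V - A''.card) (by omega) A'' (fun z hz => (hA'' z).2 (Or.inl (hAA hz)))
      (by
        intro z hz hzA y hzy
        rw [hA''] at hz ⊢
        rcases hz with hz | ⟨p, rfl⟩
        · exact Or.inl (hcl z hz hzA y hzy)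
        · exact Or.inr (hreach p y hzy)) rfl
    have hBl := hBlock t (fun x => u (i₀, x)) hu₀ (by omega)
    rw [hFp] at hBl
    have hFpos : ∀ B : Finset V, 0 < FA c e (AuG R) B := by
      intro B
      unfold FA
      apply Nat.mul_pos
      · exact Finset.card_pos.2 ⟨1, mem_GS.2 ⟨(AuG R).one_mem, fun _ _ => rfl⟩⟩
      · exact pow_pos (ocA_pos c (AuG R) B) e
    have hgo : 0 < g * o ^ e := Nat.mul_pos (by omega) (pow_pos (by omega) e)
    have hlog : Real.log (FA c e (AuG R) A') ≤ D * L + D * Real.log ((g * o ^ e : ℕ) : ℝ) +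
        Real.log (FA c e (AuG R) A'') := by
      have h5 : ((FA c e (AuG R) A' : ℕ) : ℝ) ≤ ((a : ℝ) * 4 ^ e) ^ D * ((g * o ^ e : ℕ) : ℝ) ^ D *
          (FA c e (AuG R) A'' : ℕ) := by
        exact_mod_cast hF
      have h6 : (0 : ℝ) < ((FA c e (AuG R) A' : ℕ) : ℝ) := by exact_mod_cast hFpos A'
      have h7 : (0 : ℝ) < ((FA c e (AuG R) A'' : ℕ) : ℝ) := by exact_mod_cast hFpos A''
      have h8 : (0 : ℝ) < ((g * o ^ e : ℕ) : ℝ) := by exact_mod_cast hgo
      refine (Real.log_le_log h6 h5).trans (le_of_eq ?_)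
      rw [Real.log_mul (by positivity) (by positivity), Real.log_mul (by positivity) (by positivity),
        Real.log_pow, Real.log_pow, hL]
    have hDR : (0 : ℝ) ≤ D := Nat.cast_nonneg D
    have h9 : D * Real.log ((g * o ^ e : ℕ) : ℝ) ≤ D * (κ * t) := mul_le_mul_of_nonneg_left hBl hDR
    have h10 : D * L ≤ L / m * (D * t) := by
      have h11 : L ≤ L / m * t := by
        rw [div_mul_eq_mul_div, le_div_iff₀ hm0]
        apply mul_le_mul_of_nonneg_left _ hL0
        have : m ≤ t := by omega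
        exact_mod_cast this
      calc D * L ≤ D * (L / m * t) := mul_le_mul_of_nonneg_left h11 hDR
        _ = _ := by ring
    have hA''R : (A''.card : ℝ) = A'.card + D * t := by
      rw [hA''c]
      push_cast
      ring
    rw [hA''R] at hIH
    calc Real.log (FA c e (AuG R) A') ≤ D * L + D * Real.log ((g * o ^ e : ℕ) : ℝ) +
        Real.log (FA c e (AuG R) A'') := hlog
      _ ≤ L / m * (D * t) + D * (κ * t) + (κ + L / m) * (Fintype.card V - (A'.card + D * t)) := by
          linarith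
      _ = (κ + L / m) * (Fintype.card V - A'.card) := by ring
  exact key _ A (Finset.Subset.refl A) (fun z hz hzA => absurd hz hzA) rfl

end Pool.Agent.Helper38.MS
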