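import Pool.Agent.Helper58.MS.RelG
import Pool.Agent.Helper83.MS.FAeq
import Pool.Agent.Helper12.MS.Fix
import Pool.Agent.Helper31.MS.StepD
import Pool.Agent.Helper31.MS.NumS
import Pool.Agent.Helper6.MS.Peel
import Pool.Agent.Helper6.EA.NumR

/-!
# MS12: structures without large families have exponentially few automorphisms (threshold for the monadic second-order case)
-/

set_option autoImplicit false

namespace Pool.Agent.Helper38.MS

open FirstOrder Pool.Agent.Helper20.Spectra Pool.Agent.Helper31.QD Pool.Agent.Helper38.MC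
  Pool.Agent.Helper58.QD Pool.Agent.Helper40.MC Pool.Agent.Helper6.MC Pool.Agent.Helper6.EA
open Pool.Agent.Helper12.EK (Gr Ball Cmp mem_Cmp)

/-- the smaller index -/
private lemma idx6 {C : ℕ} (hC : 1 ≤ C) {j : ℕ} (hj : 2 * (12 + 4 * C) ≤ j) :
    ∃ j', 1 ≤ j' ∧ 2 * j' ≤ j ∧ C * j ^ 2 ≤ 2 ^ j' ∧ 4 * j ≤ 2 ^ j' := by
  refine ⟨Nat.log 2 (C * j ^ 2) + 1, by omega, ?_, ?_, ?_⟩
  · obtain ⟨h, hh⟩ : ∃ h, h = j / 2 := ⟨_, rfl⟩
    have h1 : j ≤ 2 * h + 1 := by omega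
    have h2 : 12 + 4 * C ≤ h := by omega
    have h3 := quad_le6 (4 * C) 1 h (by omega)
    have h4 : C * j ^ 2 < 2 ^ h := by
      have h5 : C * j ^ 2 ≤ C * (2 * h + 2) ^ 2 := Nat.mul_le_mul_left _ (Nat.pow_le_pow_left (by omega) 2)
      have h6 : C * (2 * h + 2) ^ 2 = 4 * C * (h + 1) ^ 2 := by ring
      omega
    have h5 : Nat.log 2 (C * j ^ 2) < h := by
      apply Nat.log_lt_of_lt_pow _ h4
      have : 0 < C * j ^ 2 := Nat.mul_pos (by omega) (pow_pos (by omega) 2)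
      omega
    omega
  · exact (Nat.lt_pow_succ_log_self (by norm_num) _).le
  · refine le_trans ?_ (Nat.lt_pow_succ_log_self (b := 2) (by norm_num) (C * j ^ 2)).le
    calc 4 * j ≤ j * j := Nat.mul_le_mul_right _ (by omega)
      _ = 1 * j ^ 2 := by ring
      _ ≤ C * j ^ 2 := Nat.mul_le_mul_right _ hC

private lemma FA_pos6 (c e : ℕ) {V : Type} [Fintype V] (G : Subgroup (Equiv.Perm V)) (A : Finset V) : 0 < FA c e G A := by
  unfold FA
  apply Nat.mul_pos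
  · exact Finset.card_pos.2 ⟨1, mem_GS.2 ⟨G.one_mem, fun _ _ => rfl⟩⟩
  · exact pow_pos (ocA_pos c G A) e

/-- everything is fixed -/
private lemma FA_univ6 (c e : ℕ) {V : Type} [Fintype V] (G : Subgroup (Equiv.Perm V)) : FA c e G Finset.univ ≤ 1 := by
  have h1 : (GS G (Finset.univ : Finset V)).card ≤ 1 := by
    rw [Finset.card_le_one]
    intro g hg g' hg'
    rw [mem_GS] at hg hg'
    exact Equiv.ext fun x => (hg.2 x (Finset.mem_univ x)).trans (hg'.2 x (Finset.mem_univ x)).symm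
  have h2 : ocA c G (Finset.univ : Finset V) ≤ 1 := by
    unfold ocA
    have hsub : Subsingleton {f : V → Fin c → Bool // ∀ a ∈ (Finset.univ : Finset V), f a = fun _ => false} := by
      refine ⟨fun f f' => Subtype.ext (funext fun x => ?_)⟩
      rw [f.2 x (Finset.mem_univ x), f'.2 x (Finset.mem_univ x)]
    have : Subsingleton (Quotient (ocSA c G (Finset.univ : Finset V))) := by
      refine ⟨fun x y => ?_⟩
      induction x using Quotient.inductionOn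
      induction y using Quotient.inductionOn
      rename_i x y
      rw [Subsingleton.elim x y]
    exact Finite.card_le_one_iff_subsingleton.2 this
  unfold FA
  calc (GS G Finset.univ).card * ocA c G Finset.univ ^ e ≤ 1 * 1 ^ e := Nat.mul_le_mul h1 (Nat.pow_le_pow_left h2 e)
    _ = 1 := by simp

/-- the relative structure on the range of `w` -/
private lemma rel6 (c e : ℕ) {S : Type} {ar : S → ℕ} {V W : Type} [Fintype V] [Fintype W] (R : Interp S ar V) (w : W → V)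
    (hw : Function.Injective w) : Fp c e (res (AuG R) w hw) = FA c e (AuG (Rel R w)) ∅ := by
  rw [FA_empty, AuG_Rel R w hw]

/-- `log F ≤ (K - B / j) n` -/
def PJ (r c a e : ℕ) (K B : ℝ) (j : ℕ) : Prop := ∀ (S : Type) (ar : S → ℕ), (∀ s, ar s ≤ r) → ∀ (V : Type) [Fintype V]
    (R : Interp S ar V), NoBig R c a e → (∀ x, (orb (AuG R) x).card ≤ 2 ^ (2 ^ j)) →
    Real.log (FA c e (AuG R) ∅) ≤ (K - B / j) * Fintype.card V

private lemma PJ.use6 {r c a e : ℕ} {K B : ℝ} {j : ℕ} (hP : PJ r c a e K B j) {S : Type} {ar : S → ℕ} {V : Type} [Fintype V]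
    (R : Interp S ar V) (har : ∀ s, ar s ≤ r) (hNB : NoBig R c a e) (hO : ∀ x, (orb (AuG R) x).card ≤ 2 ^ (2 ^ j)) :
    Real.log (FA c e (AuG R) ∅) ≤ (K - B / j) * Fintype.card V := hP S ar har V R hNB hO

/-- the base of the induction -/
private lemma base6 {r c a e : ℕ} {K B : ℝ} (hB : 0 ≤ B) {j j₁ : ℕ} (hj : 1 ≤ j) (hj1 : j ≤ j₁) (hK : 2 ^ j₁ + c * e + B ≤ K) :
    PJ r c a e K B j := by
  intro S ar har V _ R hNB hO
  have h1 : FA c e (AuG R) ∅ ≤ (2 ^ (2 ^ j₁ + c * e)) ^ Fintype.card V := by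
    refine (fix_le c e (AuG R) Finset.univ hO).trans ?_
    calc (2 ^ 2 ^ j * 2 ^ (c * e)) ^ (Finset.univ : Finset V).card * FA c e (AuG R) Finset.univ ≤
        (2 ^ 2 ^ j * 2 ^ (c * e)) ^ (Finset.univ : Finset V).card * 1 := Nat.mul_le_mul_left _ (FA_univ6 c e _)
      _ = (2 ^ (2 ^ j + c * e)) ^ Fintype.card V := by rw [mul_one, ← pow_add, Finset.card_univ]
      _ ≤ _ := by
        apply Nat.pow_le_pow_left
        apply Nat.pow_le_pow_right (by norm_num)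
        have := Nat.pow_le_pow_right (show 0 < 2 by norm_num) hj1
        omega
  have h2 : Real.log (FA c e (AuG R) ∅) ≤ Fintype.card V * ((2 ^ j₁ + c * e) * Real.log 2) := by
    have h3 : ((FA c e (AuG R) ∅ : ℕ) : ℝ) ≤ ((2 : ℝ) ^ (2 ^ j₁ + c * e)) ^ Fintype.card V := by exact_mod_cast h1
    have h4 : (0 : ℝ) < ((FA c e (AuG R) ∅ : ℕ) : ℝ) := by exact_mod_cast FA_pos6 c e (AuG R) ∅
    refine (Real.log_le_log h4 h3).trans (le_of_eq ?_)
    rw [Real.log_pow, Real.log_pow]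
    push_cast
    ring
  refine h2.trans ?_
  rw [mul_comm]
  apply mul_le_mul_of_nonneg_right _ (Nat.cast_nonneg _)
  have h5 : Real.log 2 ≤ 1 := by
    have := Real.log_two_lt_d9
    linarith
  have h6 : (0 : ℝ) ≤ 2 ^ j₁ + c * e := by positivity
  have h7 : B / j ≤ B := div_le_self hB (by exact_mod_cast hj)
  nlinarith

/-- one step of the induction -/
private lemma step6 {r c a e : ℕ} (ha : 1 ≤ a) (he : 1 ≤ e) {K B : ℝ} (hBK : B ≤ K)
    (hB : Real.log (a * 4 ^ e) + (r * (r + 3) + 2) * (1 + c * e) ≤ B) {C j j' : ℕ}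
    (hn : 2 ^ (2 ^ j) * (cB r (dE r (2 ^ ((r + 1) * (2 * j))) (2 ^ (2 * j)) r)) ^ 2 * (r * 2 ^ ((r + 1) * (2 * j)) + 1) ^ r * 2 ^ (2 * j) *
      ((2 ^ (2 * j)) ^ r - 1) ^ 2 ^ ((r + 1) * (2 * j)) ≤ ((2 ^ (2 * j)) ^ r) ^ 2 ^ ((r + 1) * (2 * j)) ∧
    (2 ^ (2 * j) - 1) ^ (4 ^ (2 * j) + 1) * 2 ^ (2 * j) ≤ (2 ^ (2 * j)) ^ (4 ^ (2 * j) + 1) ∧
    ((4 ^ (2 * j) + 1) * (dE r (2 ^ ((r + 1) * (2 * j))) (2 ^ (2 * j)) r + 1) ^ 2) ^ (Nat.log 2 (4 ^ (2 * j)) + 1) ≤ 2 ^ (C * j ^ 2) ∧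
    4 ^ (2 * j) * (tE r (2 ^ ((r + 1) * (2 * j))) (2 ^ (2 * j)) r + r + 4) ≤ 2 ^ (C * j ^ 2) ∧
    j ^ 2 * (a * 2 ^ (c * e * j ^ 2) + tE r (2 ^ ((r + 1) * (2 * j))) (2 ^ (2 * j)) r + 3 * r + 3) ≤ 2 ^ (C * j ^ 2))
    (hj1 : 1 ≤ j') (hj2 : 2 * j' ≤ j) (hj3 : C * j ^ 2 ≤ 2 ^ j') (hj4 : 4 * j ≤ 2 ^ j') (hP : PJ r c a e K B j') :
    PJ r c a e K B j := by
  classical
  intro S ar har V _ R hNB hO
  obtain ⟨n1, n2, n3, n4, n5⟩ := hn
  obtain ⟨A, E, hAq, hG, hA⟩ := stepD har R Nat.one_le_two_pow hO n1 n2 n3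
  obtain ⟨L, hL⟩ : ∃ L : ℝ, L = Real.log (a * 4 ^ e) := ⟨_, rfl⟩
  rw [← hL] at hB
  have ha1 : (1 : ℝ) ≤ a * 4 ^ e := by
    have h3 : (1 : ℝ) ≤ a := by exact_mod_cast ha
    have h4 : (1 : ℝ) ≤ 4 ^ e := one_le_pow₀ (by norm_num)
    nlinarith
  have hL0 : 0 ≤ L := by
    rw [hL]
    exact Real.log_nonneg ha1
  have hB0 : 0 ≤ B := by
    have h3 : (0 : ℝ) ≤ (r * (r + 3) + 2) * (1 + c * e) := by positivity
    linarith
  have hj0 : 1 ≤ j := by omega
  have hjR : (1 : ℝ) ≤ j := by exact_mod_cast hj0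
  have hj'R : (1 : ℝ) ≤ j' := by exact_mod_cast hj1
  obtain ⟨κ, hκ⟩ : ∃ κ : ℝ, κ = K - B / j' := ⟨_, rfl⟩
  have hκ0 : 0 ≤ κ := by
    have := div_le_self hB0 hj'R
    rw [hκ]
    linarith
  have hM0 : 4 ^ (2 * j) ≤ 2 ^ (2 ^ j') := by
    calc 4 ^ (2 * j) = 2 ^ (4 * j) := by
          rw [show (4 : ℕ) = 2 ^ 2 by norm_num, ← pow_mul]
          congr 1
          ring
      _ ≤ _ := Nat.pow_le_pow_right (by norm_num) hj4
  have hs' : 2 ^ (C * j ^ 2) ≤ 2 ^ (2 ^ j') := Nat.pow_le_pow_right (by norm_num) hj3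
  have hPeel := peelAll (m := j ^ 2) har R ha he (Nat.one_le_pow _ _ (by omega)) hNB hG hA n4 n5 hκ0
    (by
      intro A' hAA hsm
      have e1 : FA c e (AuG R) A' = FA c e (AuG (Rel R (fun x : {v : V // v ∉ A'} => x.1))) ∅ := by
        rw [FA_eq, rel6]
      rw [e1, hκ]
      have h3 := hP.use6 (Rel R (fun x : {v : V // v ∉ A'} => x.1)) (fun s => har s.1)
        (NoBig_Rel hNB _ Subtype.val_injective) (fun x => by
          refine le_trans ?_ ((hsm x.1 x.2).trans hs')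
          convert orb_Rel R A' x)
      refine h3.trans (le_of_eq ?_)
      congr 1
      have h4 : Fintype.card {v : V // v ∉ A'} = Fintype.card V - A'.card := by
        rw [Fintype.card_subtype_compl, Fintype.card_coe]
      have h5 : A'.card ≤ Fintype.card V := Finset.card_le_univ A'
      rw [h4, Nat.cast_sub h5])
    (by
      intro t w hw ht
      rw [rel6, hκ]
      have h3 := hP.use6 (Rel R w) (fun s => har s.1) (NoBig_Rel hNB _ hw) (fun x => by
        refine le_trans (Finset.card_le_univ _) ?_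
        rw [Fintype.card_fin]
        exact ht.trans hM0)
      rw [Fintype.card_fin] at h3
      exact h3)
  rw [← hL] at hPeel
  obtain ⟨n, hn⟩ : ∃ n : ℝ, n = Fintype.card V := ⟨_, rfl⟩
  have hn0 : 0 ≤ n := by
    rw [hn]
    exact Nat.cast_nonneg _
  rw [← hn] at hPeel ⊢
  have hA0 : (0 : ℝ) ≤ A.card := Nat.cast_nonneg _
  have hfix := fix_le c e (AuG R) A hO
  have h3 : Real.log (FA c e (AuG R) ∅) ≤ A.card * ((2 ^ j + c * e) * Real.log 2) + Real.log (FA c e (AuG R) A) := by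
    have h4 : ((FA c e (AuG R) ∅ : ℕ) : ℝ) ≤ ((2 : ℝ) ^ (2 ^ j) * 2 ^ (c * e)) ^ A.card * (FA c e (AuG R) A : ℕ) := by
      exact_mod_cast hfix
    have h5 : (0 : ℝ) < ((FA c e (AuG R) ∅ : ℕ) : ℝ) := by exact_mod_cast FA_pos6 c e (AuG R) ∅
    have h6 : (0 : ℝ) < ((FA c e (AuG R) A : ℕ) : ℝ) := by exact_mod_cast FA_pos6 c e (AuG R) A
    refine (Real.log_le_log h5 h4).trans (le_of_eq ?_)
    rw [Real.log_mul (by positivity) (by positivity), Real.log_pow, ← pow_add, Real.log_pow]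
    push_cast
    ring
  -- the cost of `A`
  obtain ⟨c₁, hc₁⟩ : ∃ c₁ : ℝ, c₁ = r * (r + 3) + 2 := ⟨_, rfl⟩
  rw [← hc₁] at hB
  have hc0 : 0 ≤ c₁ := by
    rw [hc₁]
    positivity
  obtain ⟨y, hy⟩ : ∃ y : ℝ, y = 2 ^ j := ⟨_, rfl⟩
  have hy1 : (j : ℝ) ≤ y := by
    rw [hy]
    exact_mod_cast Nat.lt_two_pow_self.le
  have hy0 : 0 < y := by linarith
  have hAq' : y * y * A.card ≤ c₁ * n := by
    have h7 : (((2 ^ (2 * j) * A.card : ℕ)) : ℝ) ≤ (((r * (r + 3) + 2) * Fintype.card V : ℕ) : ℝ) := by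
      exact_mod_cast hAq
    push_cast at h7
    rw [hy, hc₁, hn]
    calc (2 : ℝ) ^ j * 2 ^ j * A.card = 2 ^ (2 * j) * A.card := by
          rw [← pow_add]
          congr 2
          ring
      _ ≤ _ := h7
  have h8 : A.card * ((2 ^ j + c * e) * Real.log 2) ≤ c₁ * (1 + c * e) * n / j := by
    have h5 : Real.log 2 ≤ 1 := by
      have := Real.log_two_lt_d9
      linarith
    have hce : (0 : ℝ) ≤ c * e := by positivity
    have h9 : (2 ^ j + c * e : ℝ) * Real.log 2 ≤ (1 + c * e) * y := by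
      rw [← hy]
      have h10 : (y + c * e) * Real.log 2 ≤ (y + c * e) * 1 := mul_le_mul_of_nonneg_left h5 (by positivity)
      nlinarith
    have h10 : (A.card : ℝ) * ((1 + c * e) * y) * j ≤ c₁ * (1 + c * e) * n := by
      calc (A.card : ℝ) * ((1 + c * e) * y) * j ≤ (A.card : ℝ) * ((1 + c * e) * y) * y :=
            mul_le_mul_of_nonneg_left hy1 (by positivity)
        _ = (1 + c * e) * (y * y * A.card) := by ring
        _ ≤ (1 + c * e) * (c₁ * n) := mul_le_mul_of_nonneg_left hAq' (by positivity)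
        _ = _ := by ring
    calc A.card * ((2 ^ j + c * e) * Real.log 2) ≤ A.card * ((1 + c * e) * y) := mul_le_mul_of_nonneg_left h9 hA0
      _ ≤ _ := by
        rw [le_div_iff₀ (by linarith)]
        exact h10
  have h11 : (κ + L / ((j ^ 2 : ℕ) : ℝ)) * (n - A.card) ≤ (κ + L / j) * n := by
    have h12 : L / ((j ^ 2 : ℕ) : ℝ) ≤ L / j := by
      apply div_le_div_of_nonneg_left hL0 (by linarith)
      push_cast
      nlinarith
    have h13 : 0 ≤ L / ((j ^ 2 : ℕ) : ℝ) := div_nonneg hL0 (Nat.cast_nonneg _)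
    calc (κ + L / ((j ^ 2 : ℕ) : ℝ)) * (n - A.card) ≤ (κ + L / ((j ^ 2 : ℕ) : ℝ)) * n :=
          mul_le_mul_of_nonneg_left (by linarith) (by linarith)
      _ ≤ _ := mul_le_mul_of_nonneg_right (by linarith) hn0
  have h14 : κ + L / j + c₁ * (1 + c * e) / j ≤ K - B / j := by
    rw [hκ]
    have h15 : B / j + B / j ≤ B / j' := by
      rw [← add_div, div_le_div_iff₀ (by linarith) (by linarith)]
      have h16 : (2 : ℝ) * j' ≤ j := by exact_mod_cast hj2
      nlinarith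
    have h17 : L / j + c₁ * (1 + c * e) / j ≤ B / j := by
      rw [← add_div]
      exact div_le_div_of_nonneg_right hB (by linarith)
    linarith
  calc Real.log (FA c e (AuG R) ∅) ≤ A.card * ((2 ^ j + c * e) * Real.log 2) + Real.log (FA c e (AuG R) A) := h3
    _ ≤ c₁ * (1 + c * e) * n / j + (κ + L / j) * n := add_le_add h8 (hPeel.trans h11)
    _ = (κ + L / j + c₁ * (1 + c * e) / j) * n := by ring
    _ ≤ (K - B / j) * n := mul_le_mul_of_nonneg_right h14 hn0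

theorem keyS (r c a e : ℕ) (ha : 1 ≤ a) (he : 1 ≤ e) : ∃ K : ℕ, ∀ (S : Type) (ar : S → ℕ), (∀ s, ar s ≤ r) → ∀ (n : ℕ)
    (R : Interp S ar (Fin n)), NoBig R c a e → Nat.card (AuG R) ≤ K ^ n := by
  classical
  obtain ⟨C, hC, j₀, hj₀, hnum⟩ := numS r c a e
  obtain ⟨j₁, hj₁⟩ : ∃ j₁, j₁ = j₀ + 2 * (12 + 4 * C) := ⟨_, rfl⟩
  obtain ⟨B, hB⟩ : ∃ B : ℝ, B = Real.log (a * 4 ^ e) + (r * (r + 3) + 2) * (1 + c * e) := ⟨_, rfl⟩
  have ha1 : (1 : ℝ) ≤ a * 4 ^ e := by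
    have h3 : (1 : ℝ) ≤ a := by exact_mod_cast ha
    have h4 : (1 : ℝ) ≤ 4 ^ e := one_le_pow₀ (by norm_num)
    nlinarith
  have hB0 : 0 ≤ B := by
    have h3 : (0 : ℝ) ≤ (r * (r + 3) + 2) * (1 + c * e) := by positivity
    have h4 := Real.log_nonneg ha1
    linarith
  obtain ⟨K, hK⟩ : ∃ K : ℝ, K = 2 ^ j₁ + c * e + B := ⟨_, rfl⟩
  have hBK : B ≤ K := by
    have h3 : (0 : ℝ) ≤ 2 ^ j₁ + c * e := by positivity
    linarith
  have hall : ∀ j, 1 ≤ j → PJ r c a e K B j := by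
    intro j
    induction j using Nat.strong_induction_on with
    | _ j IH =>
      intro hj
      rcases Nat.lt_or_ge j₁ j with h | h
      · obtain ⟨j', h1, h2, h3, h4⟩ := idx6 hC (show 2 * (12 + 4 * C) ≤ j by omega)
        exact step6 ha he hBK hB.ge (hnum j (by omega)) h1 h2 h3 h4 (IH j' (by omega) h1)
      · exact base6 hB0 hj h hK.ge
  refine ⟨⌈Real.exp K⌉₊, fun S ar har n R hNB => ?_⟩
  have h1 := hall (n + 1) (by omega) S ar har (Fin n) R hNB (fun x => by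
    refine (Finset.card_le_univ _).trans ?_
    rw [Fintype.card_fin]
    have h2 : n < 2 ^ n := Nat.lt_two_pow_self
    have h3 : n < 2 ^ (n + 1) := by
      rw [pow_succ]
      omega
    exact (h3.trans Nat.lt_two_pow_self).le)
  rw [FA_empty, Fintype.card_fin] at h1
  have h2 : Nat.card (AuG R) ≤ Fp c e (AuG R) := by
    unfold Fp
    exact Nat.le_mul_of_pos_right _ (pow_pos (oc_pos c _) e)
  have h3 : (0 : ℝ) < Nat.card (AuG R) := by exact_mod_cast Nat.card_pos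
  have h4 : Real.log (Nat.card (AuG R)) ≤ n * K := by
    refine (Real.log_le_log h3 (by exact_mod_cast h2)).trans (h1.trans ?_)
    rw [mul_comm]
    apply mul_le_mul_of_nonneg_left _ (Nat.cast_nonneg _)
    have := div_nonneg hB0 (Nat.cast_nonneg (α := ℝ) (n + 1))
    linarith
  have h5 : (Nat.card (AuG R) : ℝ) ≤ ((⌈Real.exp K⌉₊ : ℕ) : ℝ) ^ n := by
    calc (Nat.card (AuG R) : ℝ) = Real.exp (Real.log (Nat.card (AuG R))) := (Real.exp_log h3).symm
      _ ≤ Real.exp (n * K) := Real.exp_le_exp.2 h4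
      _ = Real.exp K ^ n := Real.exp_nat_mul K n
      _ ≤ _ := pow_le_pow_left₀ (Real.exp_pos K).le (Nat.le_ceil _) n
  exact_mod_cast h5

end Pool.Agent.Helper38.MS
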